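import Mathlib
import Pool.Agent.X329.OConj.Main

/-!
# A quotient by o-conjugacy which is not cancellative

There is a countable semigroup (even a monoid) `S` on which o-conjugacy is a congruence and whose
quotient by it is not cancellative: the quotient is the two-element semilattice `{1, 0}`.

`S` is `V` with an identity adjoined, and `V` is a suitable countable subsemigroup of the semigroup
`T` (under composition) of all injective functions `f` on the ordinals such that `a < f a` for all
`a` and arbitrarily large ordinals are not in the range of `f`.  For all `s`, `t` in `T` there is `g` in `T`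
with `s g = g t`: every ordinal is `t^k r` for a unique `r` outside the range of `t` and a unique
`k`, and one puts `g (t^k r) = s^k (ρ r)` where `ρ r` is not in the range of `s`, is larger than all
`t^k r`, and `ρ` is injective.  So any two elements of `T` are o-conjugate, and `V` is obtained by
closing `{t0}` under products and such a choice of `g`.  The identity is not o-conjugate to any `t`
in `V`, as `g = g t` is impossible.
-/

set_option autoImplicit false

namespace Pool.Agent.Results.MP_472d46_al.NonCancellativeQuotient

universe u

/-- `a g = g b` for some `g` in the semigroup `S¹` (`S` with an identity adjoined, if it has none);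
for `g = 1` this means `a = b`. -/
def Semiconj {S : Type u} [Semigroup S] (a b : S) : Prop := a = b ∨ ∃ g : S, a * g = g * b

/-- o-conjugacy: there are `g`, `h` in `S¹` with `a g = g b` and `b h = h a` -/
def OConj {S : Type u} [Semigroup S] (a b : S) : Prop := Semiconj a b ∧ Semiconj b a

section

variable {V : Type u} [Semigroup V]

theorem conj_coe (h1 : ∀ s t : V, ∃ g : V, s * g = g * t) (s t : V) :
    Semiconj (s : WithOne V) (t : WithOne V) := by
  obtain ⟨g, hg⟩ := h1 s t
  refine Or.inr ⟨(g : WithOne V), ?_⟩
  rw [← WithOne.coe_mul, ← WithOne.coe_mul, hg]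

theorem not_conj (h2 : ∀ g t : V, g ≠ g * t) (t : V) :
    ¬ Semiconj (1 : WithOne V) (t : WithOne V) := by
  rintro (h | ⟨g, hg⟩)
  · exact WithOne.coe_ne_one h.symm
  · rw [one_mul] at hg
    cases g with
    | one =>
      rw [one_mul] at hg
      exact WithOne.coe_ne_one hg.symm
    | coe g =>
      rw [← WithOne.coe_mul] at hg
      exact h2 g t (WithOne.coe_inj.1 hg)

theorem conj_iff (h1 : ∀ s t : V, ∃ g : V, s * g = g * t) (h2 : ∀ g t : V, g ≠ g * t)
    (a b : WithOne V) : OConj a b ↔ (a = 1 ↔ b = 1) := by
  cases a with
  | one =>
    cases b with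
    | one => exact ⟨fun _ => Iff.rfl, fun _ => ⟨Or.inl rfl, Or.inl rfl⟩⟩
    | coe t =>
      constructor
      · rintro ⟨h, -⟩
        exact absurd h (not_conj h2 t)
      · intro h
        exact absurd (h.1 rfl) WithOne.coe_ne_one
  | coe s =>
    cases b with
    | one =>
      constructor
      · rintro ⟨-, h⟩
        exact absurd h (not_conj h2 s)
      · intro h
        exact absurd (h.2 rfl) WithOne.coe_ne_one
    | coe t =>
      exact ⟨fun _ => ⟨fun h => absurd h WithOne.coe_ne_one, fun h => absurd h WithOne.coe_ne_one⟩,
        fun _ => ⟨conj_coe h1 s t, conj_coe h1 t s⟩⟩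

theorem mul_eq_one (a b : WithOne V) : a * b = 1 ↔ a = 1 ∧ b = 1 := by
  cases a with
  | one => simp
  | coe s =>
    cases b with
    | one => simp
    | coe t =>
      rw [← WithOne.coe_mul]
      constructor
      · intro h
        exact absurd h WithOne.coe_ne_one
      · rintro ⟨h, -⟩
        exact absurd h WithOne.coe_ne_one

end

/-- There is a countable semigroup on which o-conjugacy is a congruence `r` such that the quotient
by `r` is not cancellative. -/
theorem result : ∃ (S : Type) (_ : Semigroup S) (r : Con S), Countable S ∧
    (∀ a b : S, r a b ↔ OConj a b) ∧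
    ¬ ((∀ x y z : r.Quotient, x * z = y * z → x = y) ∧
      (∀ x y z : r.Quotient, z * x = z * y → x = y)) := by
  obtain ⟨V, i1, i2, ⟨t⟩, h1, h2⟩ := Pool.Agent.X329.OConj.exists_type
  let r : Con (WithOne V) :=
    { r := fun a b => (a = 1 ↔ b = 1)
      iseqv := ⟨fun _ => Iff.rfl, fun h => h.symm, fun h h' => h.trans h'⟩
      mul' := by
        intro a b c d h1 h2
        show a * c = 1 ↔ b * d = 1
        rw [mul_eq_one, mul_eq_one, h1, h2] }
  refine ⟨WithOne V, inferInstance, r, inferInstanceAs (Countable (Option V)),
    fun a b => (conj_iff h1 h2 a b).symm, ?_⟩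
  rintro ⟨h, -⟩
  have h3 := h ((1 : WithOne V) : r.Quotient) ((t : WithOne V) : r.Quotient)
    ((t : WithOne V) : r.Quotient) ?_
  · have h4 : (1 : WithOne V) = 1 ↔ (t : WithOne V) = 1 := (Con.eq r).1 h3
    exact WithOne.coe_ne_one (h4.1 rfl)
  · rw [← Con.coe_mul, ← Con.coe_mul, Con.eq]
    show (1 : WithOne V) * t = 1 ↔ (t : WithOne V) * t = 1
    rw [mul_eq_one, mul_eq_one]
    exact ⟨fun h => absurd h.2 WithOne.coe_ne_one, fun h => absurd h.2 WithOne.coe_ne_one⟩

end Pool.Agent.Results.MP_472d46_al.NonCancellativeQuotient
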